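import Pool.Agent.R230.DP.Uniq

/-!
# A hyperbolic periodic solution of a delay equation whose continuation is not analytic

There are a real analytic `f`, constant delays and a hyperbolic periodic solution `x₀` at the
parameter `α₀` whose continuation `x(t, α)` is not real analytic in `α` at `α₀` (already the value
`x(0, α)` is not).  Here `N = 3`, the delays are `0` and `1`, `p₀ = 1` and `α₀ = 2π`: a planar
oscillator with frequency `α` drives the scalar equation `y'(t) = -2 y(t) + y(t - 1) + g`.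
-/

set_option autoImplicit false

open Complex Set Filter Topology

namespace Pool.Agent.Results.MP_c1c035_an.NonanalyticContinuation

open Pool.Agent.R230.DP

/-- change of one coefficient, so that the driven component has derivative `0` at time `0` -/
theorem exists_c : ∃ (c : ℕ → ℂ) (K : ℝ), (∀ n, ‖c n‖ ≤ K) ∧ deriv (xs c (2 * Real.pi)) 0 2 = 0 ∧
    ¬ AnalyticAt ℝ (fun x : ℝ => (∑' n, c n * ph n (x : ℂ)).re) (2 * Real.pi) := by
  obtain ⟨b, hb⟩ := exists_nonanalytic
  have hbK : ∀ n, ‖b n‖ ≤ ‖b‖ := fun n => b.norm_coe_le_norm n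
  set S : ℂ := ∑' n, (I * n * ((2 * Real.pi : ℝ) : ℂ)) * (b n * exp (I * n * ((2 * Real.pi : ℝ) : ℂ) * (0 : ℝ))
    * ph n ((2 * Real.pi : ℝ) : ℂ)) with hS
  have hph : ph 1 ((2 * Real.pi : ℝ) : ℂ) ≠ 0 := by
    rw [ph]
    apply inv_ne_zero
    exact mul_ne_zero (by norm_num) (Dn_ne 1 _ (by simp))
  have hpi : ((2 * Real.pi : ℝ) : ℂ) ≠ 0 := by
    have : (2 * Real.pi : ℝ) ≠ 0 := by positivity
    exact_mod_cast this
  set κ : ℂ := -S / (I * ((2 * Real.pi : ℝ) : ℂ) * ph 1 ((2 * Real.pi : ℝ) : ℂ)) with hκ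
  set e : ℕ → ℂ := fun n => if n = 1 then κ else 0 with he
  have heK : ∀ n, ‖e n‖ ≤ ‖κ‖ := by
    intro n
    by_cases h : n = 1
    · simp [he, h]
    · simp [he, h]
  have hcK : ∀ n, ‖b n + e n‖ ≤ ‖b‖ + ‖κ‖ := fun n =>
    le_trans (norm_add_le _ _) (add_le_add (hbK n) (heK n))
  refine ⟨fun n => b n + e n, ‖b‖ + ‖κ‖, hcK, ?_, ?_⟩
  · obtain ⟨-, -, h2⟩ := dx_zero (fun n => b n + e n) (‖b‖ + ‖κ‖) hcK (2 * Real.pi)
    rw [h2]
    have hs1 := deriv_terms_summable b ‖b‖ hbK (2 * Real.pi) 0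
    have hs2 := deriv_terms_summable e ‖κ‖ heK (2 * Real.pi) 0
    have h3 : ∑' n, (I * n * ((2 * Real.pi : ℝ) : ℂ)) * ((b n + e n)
        * exp (I * n * ((2 * Real.pi : ℝ) : ℂ) * (0 : ℝ)) * ph n ((2 * Real.pi : ℝ) : ℂ)) = 0 := by
      have h4 : ∑' n, (I * n * ((2 * Real.pi : ℝ) : ℂ)) * ((b n + e n)
        * exp (I * n * ((2 * Real.pi : ℝ) : ℂ) * (0 : ℝ)) * ph n ((2 * Real.pi : ℝ) : ℂ))
        = S + ∑' n, (I * n * ((2 * Real.pi : ℝ) : ℂ)) * (e n
        * exp (I * n * ((2 * Real.pi : ℝ) : ℂ) * (0 : ℝ)) * ph n ((2 * Real.pi : ℝ) : ℂ)) := by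
        rw [hS, ← hs1.tsum_add hs2]
        apply tsum_congr
        intro n
        ring
      rw [h4, tsum_eq_single 1]
      · simp only [he, if_true, ofReal_zero, mul_zero, exp_zero, mul_one, Nat.cast_one]
        rw [hκ]
        field_simp
        ring
      · intro n hn
        simp [he, hn]
    rw [h3]
    simp
  · intro hcon
    apply hb
    have h5 : AnalyticAt ℝ (fun x : ℝ => (κ * ph 1 (x : ℂ)).re) (2 * Real.pi) := by
      have h6 : AnalyticAt ℝ (ph 1) ((2 * Real.pi : ℝ) : ℂ) := (ph_analyticAt 1 (2 * Real.pi)).restrictScalars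
      have h7 : AnalyticAt ℝ (fun x : ℝ => ph 1 (x : ℂ)) (2 * Real.pi) :=
        AnalyticAt.comp (g := ph 1) (f := fun x : ℝ => (x : ℂ)) h6 (ofRealCLM.analyticAt _)
      have h8 : AnalyticAt ℝ (fun x : ℝ => κ * ph 1 (x : ℂ)) (2 * Real.pi) := analyticAt_const.mul h7
      exact (reCLM.analyticAt _).comp h8
    have h9 := hcon.sub h5
    have h10 : (fun x : ℝ => (∑' n, b n * ph n (x : ℂ)).re) = (fun x : ℝ => (∑' n, (b n + e n) * ph n (x : ℂ)).re)
        - fun x : ℝ => (κ * ph 1 (x : ℂ)).re := by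
      funext x
      have hs1 : Summable (fun n => b n * ph n (x : ℂ)) := by
        have := term_summable b ‖b‖ hbK x 0
        simpa using this
      have hs2 : Summable (fun n => e n * ph n (x : ℂ)) := by
        have := term_summable e ‖κ‖ heK x 0
        simpa using this
      have h11 : ∑' n, (b n + e n) * ph n (x : ℂ) = ∑' n, b n * ph n (x : ℂ) + κ * ph 1 (x : ℂ) := by
        have h12 : ∑' n, e n * ph n (x : ℂ) = κ * ph 1 (x : ℂ) := by
          rw [tsum_eq_single 1]
          · simp [he]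
          · intro n hn
            simp [he, hn]
        rw [← h12, ← hs1.tsum_add hs2]
        apply tsum_congr
        intro n
        ring
      simp only [Pi.sub_apply, h11, add_re, add_sub_cancel_right]
    rw [h10]
    exact h9

/-- **Non-analytic continuation.**  There are constant delays, a real analytic `f` and a hyperbolic
periodic solution `x₀` at `α₀` with continuation `x(·, α)`, `p(α)` such that `x(0, α)` is not real
analytic in `α` at `α₀`. -/
theorem result : ∃ (N M : ℕ) (r : Fin (M + 1) → ℝ)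
    (f : (Fin (M + 1) → Fin N → ℝ) × ℝ → Fin N → ℝ) (α₀ p₀ δ : ℝ) (x₀ : ℝ → Fin N → ℝ)
    (x : ℝ → ℝ → Fin N → ℝ) (p : ℝ → ℝ),
    r 0 = 0 ∧ (∀ k, 0 ≤ r k) ∧ AnalyticOnNhd ℝ f univ ∧ Hyperbolic r f α₀ p₀ x₀ ∧
    IsContinuation r f α₀ p₀ x₀ δ x p ∧ ¬ AnalyticAt ℝ (fun α => x α 0) α₀ := by
  obtain ⟨c, K, hc, hd2, hna⟩ := exists_c
  have hpi := Real.pi_gt_three
  have hpi0 : (2 * Real.pi : ℝ) ≠ 0 := by positivity
  refine ⟨3, 1, rr, ff c, 2 * Real.pi, 1, 1 / 2, xs c (2 * Real.pi), xs c, fun α => 2 * Real.pi / α,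
    by simp [rr], ?_, ff_analytic c K hc, hyperbolic c K hc, ?_, ?_⟩
  · intro k
    fin_cases k <;> simp [rr]
  · refine ⟨by norm_num, rfl, div_self hpi0, ?_, ?_, ?_, ?_, ?_⟩
    · intro α hα
      have hα' := abs_lt.1 hα
      exact ⟨xs_sol c K hc α, xs_period c α (by linarith)⟩
    · intro α _
      obtain ⟨hd0, -, -⟩ := dx_zero c K hc (2 * Real.pi)
      rw [Fin.sum_univ_three, hd0, hd2]
      simp [xs]
    · exact (xs_continuous c K hc).continuousOn
    · intro α hα
      have hα'' : |α - 2 * Real.pi| < 1 / 2 := hα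
      have hα' := abs_lt.1 hα''
      apply ContinuousAt.continuousWithinAt
      exact continuousAt_const.div continuousAt_id (by change α ≠ 0; linarith)
    · intro α hα z q hz hq hper hnear hsec
      exact unique_sol c K hc hd2 α hα z q hz hq hper hnear hsec
  · intro hcon
    rw [analyticAt_pi_iff] at hcon
    have h2 := hcon 2
    apply hna
    have e : (fun x : ℝ => (∑' n, c n * ph n (x : ℂ)).re) = fun α => xs c α 0 2 := by
      funext x
      have : xs c x 0 2 = (yc c x 0).re := rfl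
      rw [this, yc]
      simp
    rw [e]
    exact h2

end Pool.Agent.Results.MP_c1c035_an.NonanalyticContinuation
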